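import Pool.Agent.Lib_MP_92ef0c_ap.ThmD

/-!
# MP_92ef0c_nt: certificate for the pairs `(d i + c) / k`, `(d (i + k) + c) / k`
-/

set_option autoImplicit false

namespace Pool.Agent.TwQ

open Finset

theorem of_mem_filter (s : Finset ℕ) (p : ℕ → Prop) (inst : DecidablePred p) (a : ℕ)
    (h : a ∈ @Finset.filter _ p inst s) : a ∈ s ∧ p a := Finset.mem_filter.mp h

theorem exists_root (p d c : ℕ) (hp : p.Prime) (hpd : ¬ p ∣ d) : ∃ r : ℕ, p ∣ d * r + c := by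
  have : Fact p.Prime := ⟨hp⟩
  have hd : ((d : ℕ) : ZMod p) ≠ 0 := by
    rw [Ne, ZMod.natCast_eq_zero_iff]
    exact hpd
  refine ⟨((-(c : ZMod p)) * ((d : ZMod p))⁻¹).val, ?_⟩
  rw [← ZMod.natCast_eq_zero_iff]
  push_cast
  rw [ZMod.natCast_zmod_val]
  field_simp
  ring

theorem cert (q : ℕ) [NeZero q] (TT : Set (ZMod q × ZMod q))
    (hTT : ∀ c c' : ZMod q, ∃ j : ℕ, (c - (j : ZMod q), c' - (j : ZMod q)) ∈ TT)
    (d B c : ℕ) (hd : 0 < d) (hB : 0 < B) :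
    ∃ I K0 : ℕ, 0 < I ∧ ∀ X : ℕ → ZMod q, ∃ i k : ℕ, I ≤ i ∧ i < 2 * I ∧ B ∣ i ∧ 0 < k ∧ k ≤ K0 ∧
      Squarefree k ∧ k ≡ 1 [MOD B] ∧ k ∣ d * i + c ∧
      (X i - (k.primeFactors.card : ZMod q), X (i + k) - (k.primeFactors.card : ZMod q)) ∈ TT := by
  classical
  obtain ⟨K0, I0, ε0, hε0, h⟩ := thmD q TT hTT (B * d) (Nat.mul_pos hB hd)
  refine ⟨max I0 1, K0, lt_of_lt_of_le one_pos (le_max_right _ _), fun X => ?_⟩
  set I : ℕ := max I0 1 with hI
  have hI1 : 1 ≤ I := le_max_right _ _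
  set ρ : ℕ → ℕ := fun p => if h : ∃ r : ℕ, p ∣ d * r + c then h.choose else 0 with hρ
  have hρspec : ∀ p : ℕ, p.Prime → ¬ p ∣ B * d → p ∣ d * ρ p + c := by
    intro p hp hpd
    have hex := exists_root p d c hp (fun h => hpd (h.mul_left B))
    have : ρ p = hex.choose := by
      rw [hρ]
      simp only [dif_pos hex]
    rw [this]
    exact hex.choose_spec
  have h1 := h I (le_max_left _ _) X X (fun i => B ∣ i) (fun _ => True) ρ
    (by
      intro i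
      exact (Nat.dvd_add_left (dvd_mul_right B d)))
    (by intro i; exact Iff.rfl)
    (by
      intro k _
      exact ⟨0, dvd_zero _, trivial⟩)
  have h0 : 0 < ε0 * I := by
    have : (1 : ℝ) ≤ I := by exact_mod_cast hI1
    positivity
  have h3 := Nat.cast_pos.mp (lt_of_lt_of_le h0 h1)
  obtain ⟨i, hi⟩ := Finset.card_pos.mp h3
  obtain ⟨hiI, hBi, k, hk0, hsq, hp, -, hT⟩ := of_mem_filter _ _ _ _ hi
  obtain ⟨hi1, hi2⟩ := mem_Ico.mp hiI
  have hkprod : ∏ p ∈ k.primeFactors, p = k := Nat.prod_primeFactors_of_squarefree hsq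
  have hkb : k ≡ 1 [MOD B * d] := by
    rw [← hkprod]
    refine Finset.prod_induction (fun p => p) (fun n => n ≡ 1 [MOD B * d]) ?_ (Nat.ModEq.refl 1) ?_
    · intro a b ha hb
      simpa using ha.mul hb
    · intro p hpk
      exact (hp p hpk).1
  refine ⟨i, k, hi1, hi2, hBi, Nat.pos_of_ne_zero hsq.ne_zero, hk0, hsq,
    hkb.of_dvd (dvd_mul_right B d), ?_, hT⟩
  rw [← hkprod]
  apply Finset.prod_primes_dvd
  · intro p hpk
    exact (Nat.prime_of_mem_primeFactors hpk).prime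
  · intro p hpk
    obtain ⟨-, h5, h6⟩ := hp p hpk
    have h7 := hρspec p (Nat.prime_of_mem_primeFactors hpk) h5
    have h8 : d * i + c ≡ d * ρ p + c [MOD p] := (h6.mul_left d).add_right c
    exact (Nat.modEq_zero_iff_dvd.mp (h8.trans (Nat.modEq_zero_iff_dvd.mpr h7)))

end Pool.Agent.TwQ
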