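import Pool.Agent.Lib_MP_92ef0c_ap.OneT

/-!
# MP_92ef0c_nt: the count
-/

set_option autoImplicit false

namespace Pool.Agent.TwQ

open Finset ArithmeticFunction

theorem count (q : ℕ) [NeZero q] (TT : Set (ZMod q × ZMod q))
    (hTT : ∀ c c' : ZMod q, ∃ j : ℕ, (c - (j : ZMod q), c' - (j : ZMod q)) ∈ TT)
    (d B c : ℕ) (hd : 0 < d) (hB : 0 < B) :
    ∃ (R E : ℕ) (c0 : ℝ), 0 < c0 ∧ ∀ᶠ N : ℕ in Filter.atTop,
      c0 * N / (Real.log N) ^ E ≤ (Set.ncard {n : ℕ | 1 ≤ n ∧ n ≤ N ∧ n ≡ c [MOD B] ∧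
        AP R N n ∧ AP R N (n + d) ∧
        ((cardFactors n : ZMod q), (cardFactors (n + d) : ZMod q)) ∈ TT} : ℝ) := by
  classical
  obtain ⟨I, K0, hI, hcert⟩ := cert q TT hTT d B c hd hB
  obtain ⟨m, hm⟩ : ∃ m, m = 2 * I + K0 := ⟨_, rfl⟩
  have hm1 : 1 ≤ m := by omega
  obtain ⟨C, hC⟩ := Pool.Agent.OmAP.sieve_count m
  obtain ⟨W, hW⟩ : ∃ W, W = WW d c B K0 m := ⟨_, rfl⟩
  have hWpos : 0 < W := hW ▸ WW_pos d c B K0 m hd hB
  have hWr : (0 : ℝ) < W := by exact_mod_cast hWpos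
  set E' : ℕ := 2 * C + 3 with hE'
  refine ⟨W + E', 8 * m, Real.exp (-(8 * m)) / (8 * W * 2 ^ (8 * m) * ((m + 1) * (m + 1))), by positivity, ?_⟩
  filter_upwards [Filter.eventually_ge_atTop (W * 2 ^ (W * (C + 1))),
    Filter.eventually_ge_atTop (2 * W), Filter.eventually_ge_atTop 3] with N hN1 hN2 hN3
  obtain ⟨T, hT⟩ : ∃ T, T = N / W := ⟨_, rfl⟩
  obtain ⟨M, hM⟩ : ∃ M, M = Nat.log 2 T / (C + 1) := ⟨_, rfl⟩
  have hT1 : 2 ^ (W * (C + 1)) ≤ T := by
    rw [hT, Nat.le_div_iff_mul_le hWpos, mul_comm]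
    exact hN1
  have hT0 : T ≠ 0 := by
    have : 0 < 2 ^ (W * (C + 1)) := by positivity
    omega
  have hMW : W ≤ M := by
    rw [hM, Nat.le_div_iff_mul_le (by omega)]
    exact Nat.le_log_of_pow_le (by norm_num) hT1
  have hM1 : 1 ≤ M := by omega
  have hMC : M * (C + 1) ≤ Nat.log 2 T := by
    rw [hM]
    exact Nat.div_mul_le_self _ _
  have hMC' : Nat.log 2 T < (M + 1) * (C + 1) := by
    rw [hM, mul_comm]
    exact Nat.lt_mul_div_succ _ (by omega)
  have hyT : (2 ^ M) ^ C ≤ T := by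
    rw [← pow_mul]
    calc 2 ^ (M * C) ≤ 2 ^ Nat.log 2 T := Nat.pow_le_pow_right (by norm_num) (by nlinarith)
      _ ≤ T := Nat.pow_log_le_self 2 hT0
  have hy2 : 2 ≤ 2 ^ M := by
    calc 2 = 2 ^ 1 := rfl
      _ ≤ 2 ^ M := Nat.pow_le_pow_right (by norm_num) hM1
  have hNy : N < (2 ^ M) ^ E' := by
    have h1 : N < W * (T + 1) := by
      rw [hT]
      exact Nat.lt_mul_div_succ N hWpos
    have h2 : T + 1 ≤ 2 ^ (Nat.log 2 T + 1) := Nat.lt_pow_succ_log_self (by norm_num) T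
    have h3 : 2 ^ (Nat.log 2 T + 1) ≤ 2 ^ ((M + 1) * (C + 1)) :=
      Nat.pow_le_pow_right (by norm_num) hMC'
    have h4 : W ≤ 2 ^ M := by
      have : M < 2 ^ M := Nat.lt_two_pow_self
      omega
    have h5 : W * (T + 1) ≤ 2 ^ M * 2 ^ ((M + 1) * (C + 1)) := Nat.mul_le_mul h4 (h2.trans h3)
    have h6 : 2 ^ M * 2 ^ ((M + 1) * (C + 1)) ≤ (2 ^ M) ^ E' := by
      rw [← pow_add, ← pow_mul]
      apply Nat.pow_le_pow_right (by norm_num)
      rw [hE']
      nlinarith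
    omega
  -- the sieved set
  set S : Finset ℕ := (range T).filter fun t =>
    ∀ p ∈ Pool.Agent.OmAP.PP m (2 ^ M), t % p ∉ Om d c B K0 m p with hS
  have hScard : (T : ℝ) / 4 * ∏ p ∈ Pool.Agent.OmAP.PP m (2 ^ M),
      (1 - ((Om d c B K0 m p).card : ℝ) / p) ≤ (S.card : ℝ) := by
    have h1 := hC (2 ^ M) T hy2 hyT (Om d c B K0 m) (by
      intro p hp
      refine ⟨Om_card d c B K0 m p (Pool.Agent.OmAP.mem_PP.mp hp).2, ?_⟩
      unfold Om
      exact filter_subset _ _)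
    exact h1
  have hprod : Real.exp (-(8 * m)) / (M : ℝ) ^ (8 * m) ≤
      ∏ p ∈ Pool.Agent.OmAP.PP m (2 ^ M), (1 - ((Om d c B K0 m p).card : ℝ) / p) := by
    refine (prod_log_lower m hm1 M hM1).trans ?_
    apply Finset.prod_le_prod
    · intro p hp
      have h1 := Pool.Agent.OmAP.mem_PP.mp hp
      have hp0 : (0 : ℝ) < p := by exact_mod_cast h1.2.pos
      rw [sub_nonneg, div_le_one hp0]
      have : m ≤ p := by omega
      exact_mod_cast this
    · intro p hp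
      have h1 := Pool.Agent.OmAP.mem_PP.mp hp
      have hp0 : (0 : ℝ) < p := by exact_mod_cast h1.2.pos
      have h2 : ((Om d c B K0 m p).card : ℝ) ≤ m := by
        exact_mod_cast Om_card d c B K0 m p h1.2
      have h3 : ((Om d c B K0 m p).card : ℝ) / p ≤ m / p := by gcongr
      linarith
  -- every element of the sieved set gives a pair
  have hex : ∀ t ∈ S, ∃ i k n : ℕ, i ≤ m ∧ k ≤ m ∧ n * k = zz d c i + WW d c B K0 m * t ∧
      1 ≤ n ∧ n ≤ N ∧ n ≡ c [MOD B] ∧ AP (WW d c B K0 m + E') N n ∧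
      AP (WW d c B K0 m + E') N (n + d) ∧
      ((cardFactors n : ZMod q), (cardFactors (n + d) : ZMod q)) ∈ TT := by
    intro t ht
    obtain ⟨ht1, ht2⟩ := mem_filter.mp ht
    rw [mem_range] at ht1
    refine one_t q TT d B c hd hB I K0 hI hcert m hm (2 ^ M) t N E' ht2 ?_ (by positivity) hNy
    rw [← hW]
    calc W * (t + 1) ≤ W * T := Nat.mul_le_mul_left _ ht1
      _ ≤ N := by
          rw [hT]
          exact Nat.mul_div_le N W
  choose! i k n hi hk hn hn1 hnN hnB hAP hAPd hTn using hex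
  have hfin : {n : ℕ | 1 ≤ n ∧ n ≤ N ∧ n ≡ c [MOD B] ∧ AP (W + E') N n ∧ AP (W + E') N (n + d) ∧
      ((cardFactors n : ZMod q), (cardFactors (n + d) : ZMod q)) ∈ TT}.Finite :=
    (Set.finite_Iic N).subset fun n hn => hn.2.1
  have himg : S.card ≤ ((m + 1) * (m + 1)) * (S.image n).card := by
    apply card_le_mul_card_image
    intro b hb
    refine card_fibre d c (WW d c B K0 m) m b (hW ▸ hWpos) _ ?_
    intro t ht
    obtain ⟨ht1, ht2⟩ := mem_filter.mp ht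
    refine ⟨i t, k t, hi t ht1, hk t ht1, ?_⟩
    rw [← ht2]
    exact hn t ht1
  have hle : (S.image n).card ≤ Set.ncard {n : ℕ | 1 ≤ n ∧ n ≤ N ∧ n ≡ c [MOD B] ∧
      AP (W + E') N n ∧ AP (W + E') N (n + d) ∧
      ((cardFactors n : ZMod q), (cardFactors (n + d) : ZMod q)) ∈ TT} := by
    rw [← Set.ncard_coe_finset]
    apply Set.ncard_le_ncard _ hfin
    intro b hb
    rw [Finset.mem_coe, mem_image] at hb
    obtain ⟨t, ht, rfl⟩ := hb
    rw [hW]
    exact ⟨hn1 t ht, hnN t ht, hnB t ht, hAP t ht, hAPd t ht, hTn t ht⟩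
  set X : ℕ := Set.ncard {n : ℕ | 1 ≤ n ∧ n ≤ N ∧ n ≡ c [MOD B] ∧
      AP (W + E') N n ∧ AP (W + E') N (n + d) ∧
      ((cardFactors n : ZMod q), (cardFactors (n + d) : ZMod q)) ∈ TT} with hX
  have hfinal : (S.card : ℝ) ≤ ((m + 1) * (m + 1)) * (X : ℝ) := by
    have := himg.trans (Nat.mul_le_mul_left _ hle)
    exact_mod_cast this
  -- real inequalities
  have hNr : (3 : ℝ) ≤ N := by exact_mod_cast hN3
  have hlogN : 0 < Real.log N := Real.log_pos (by linarith)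
  have hTr : (N : ℝ) / (2 * W) ≤ T := by
    have h1 : (N : ℝ) < W * (T + 1) := by
      have : N < W * (T + 1) := by
        rw [hT]
        exact Nat.lt_mul_div_succ N hWpos
      exact_mod_cast this
    have h2 : (2 : ℝ) * W ≤ N := by exact_mod_cast hN2
    rw [div_le_iff₀ (by positivity)]
    nlinarith
  have hMr : (M : ℝ) ≤ 2 * Real.log N := by
    have h1 : M ≤ Nat.log 2 N := by
      rw [hM]
      refine (Nat.div_le_self _ _).trans (Nat.log_mono_right ?_)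
      rw [hT]
      exact Nat.div_le_self _ _
    have h2 : (Nat.log 2 N : ℝ) * Real.log 2 ≤ Real.log N := by
      have h3 : (2 : ℝ) ^ Nat.log 2 N ≤ N := by
        exact_mod_cast Nat.pow_log_le_self 2 (by omega : N ≠ 0)
      have h4 := Real.log_le_log (by positivity) h3
      rwa [Real.log_pow] at h4
    have h3 : (M : ℝ) ≤ Nat.log 2 N := by exact_mod_cast h1
    have h4 : (1 : ℝ) / 2 ≤ Real.log 2 := by
      have := Real.log_two_gt_d9
      linarith
    have h5 : (0 : ℝ) ≤ Nat.log 2 N := Nat.cast_nonneg _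
    nlinarith
  have hM0 : (0 : ℝ) < M := by exact_mod_cast hM1
  have hpow : (M : ℝ) ^ (8 * m) ≤ 2 ^ (8 * m) * Real.log N ^ (8 * m) := by
    rw [← mul_pow]
    exact pow_le_pow_left₀ hM0.le hMr _
  have hS1 : (N : ℝ) / (2 * W) / 4 * (Real.exp (-(8 * m)) / (2 ^ (8 * m) * Real.log N ^ (8 * m))) ≤
      (S.card : ℝ) := by
    refine le_trans ?_ hScard
    apply mul_le_mul
    · linarith
    · refine le_trans ?_ hprod
      exact div_le_div_of_nonneg_left (Real.exp_pos _).le (by positivity) hpow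
    · positivity
    · positivity
  have hS2 := hS1.trans hfinal
  have hmm : (0 : ℝ) < (m + 1) * (m + 1) := by positivity
  have h9 : Real.exp (-(8 * m)) / (8 * W * 2 ^ (8 * m) * ((m + 1) * (m + 1))) * N /
      Real.log N ^ (8 * m) * ((m + 1) * (m + 1)) = (N : ℝ) / (2 * W) / 4 *
      (Real.exp (-(8 * m)) / (2 ^ (8 * m) * Real.log N ^ (8 * m))) := by
    have hlp : Real.log N ^ (8 * m) ≠ 0 := (pow_pos hlogN _).ne'
    field_simp
    norm_num
  rw [← h9, mul_comm] at hS2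
  exact le_of_mul_le_mul_left hS2 hmm

/-- THE THEOREM -/
theorem main (q : ℕ) [NeZero q] (TT : Set (ZMod q × ZMod q))
    (hTT : ∀ c c' : ZMod q, ∃ j : ℕ, (c - (j : ZMod q), c' - (j : ZMod q)) ∈ TT)
    (d B c : ℕ) (hd : 0 < d) (hB : 0 < B) :
    ∃ R : ℕ, ∀ N : ℕ, R ≤ N →
      (N : ℝ) / (Real.log N) ^ R ≤ (Set.ncard {n : ℕ | 1 ≤ n ∧ n ≤ N ∧ n ≡ c [MOD B] ∧
        AP R N n ∧ AP R N (n + d) ∧
        ((cardFactors n : ZMod q), (cardFactors (n + d) : ZMod q)) ∈ TT} : ℝ) := by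
  obtain ⟨R1, E, c0, hc0, hev⟩ := count q TT hTT d B c hd hB
  have hlog : ∀ᶠ N : ℕ in Filter.atTop, max 1 (1 / c0) ≤ Real.log N :=
    (Real.tendsto_log_atTop.comp tendsto_natCast_atTop_atTop).eventually_ge_atTop _
  obtain ⟨N0, hN0⟩ := Filter.eventually_atTop.1 (hev.and hlog)
  refine ⟨max (max R1 (E + 1)) N0, fun N hN => ?_⟩
  obtain ⟨h1, h2⟩ := hN0 N ((le_max_right _ _).trans hN)
  set R : ℕ := max (max R1 (E + 1)) N0 with hR
  have hR1 : R1 ≤ R := (le_max_left _ _).trans (le_max_left _ _)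
  have hRE : E + 1 ≤ R := (le_max_right _ _).trans (le_max_left _ _)
  have hl1 : 1 ≤ Real.log N := (le_max_left _ _).trans h2
  have hlc : 1 / c0 ≤ Real.log N := (le_max_right _ _).trans h2
  have hl0 : 0 < Real.log N := by linarith
  have h3 : (N : ℝ) / Real.log N ^ R ≤ c0 * N / Real.log N ^ E := by
    have e1 : Real.log N ^ (E + 1) ≤ Real.log N ^ R := pow_le_pow_right₀ hl1 hRE
    calc (N : ℝ) / Real.log N ^ R ≤ N / Real.log N ^ (E + 1) :=
          div_le_div_of_nonneg_left (Nat.cast_nonneg _) (by positivity) e1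
      _ ≤ c0 * N / Real.log N ^ E := by
          rw [pow_succ, div_le_div_iff₀ (by positivity) (by positivity)]
          have e2 : 1 ≤ c0 * Real.log N := by
            rw [div_le_iff₀ hc0] at hlc
            linarith
          have e3 : (0 : ℝ) ≤ N * Real.log N ^ E := by positivity
          nlinarith
  refine h3.trans (h1.trans ?_)
  have hfin : {n : ℕ | 1 ≤ n ∧ n ≤ N ∧ n ≡ c [MOD B] ∧ AP R N n ∧ AP R N (n + d) ∧
      ((cardFactors n : ZMod q), (cardFactors (n + d) : ZMod q)) ∈ TT}.Finite :=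
    (Set.finite_Iic N).subset fun n hn => hn.2.1
  have hsub : {n : ℕ | 1 ≤ n ∧ n ≤ N ∧ n ≡ c [MOD B] ∧ AP R1 N n ∧ AP R1 N (n + d) ∧
      ((cardFactors n : ZMod q), (cardFactors (n + d) : ZMod q)) ∈ TT} ⊆
      {n : ℕ | 1 ≤ n ∧ n ≤ N ∧ n ≡ c [MOD B] ∧ AP R N n ∧ AP R N (n + d) ∧
      ((cardFactors n : ZMod q), (cardFactors (n + d) : ZMod q)) ∈ TT} := by
    rintro n ⟨a1, a2, a3, a4, a5, a6⟩
    exact ⟨a1, a2, a3, AP_mono hR1 a4, AP_mono hR1 a5, a6⟩
  have h4 := Set.ncard_le_ncard hsub hfin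
  exact_mod_cast h4

end Pool.Agent.TwQ
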