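import Pool.Agent.Lib_MP_f1a94e_q.Defs

/-!
# MP_92ef0c_nt: almost prime pairs: definitions for the certificate with primes `1 mod b`
-/

set_option autoImplicit false

namespace Pool.Agent.TwQ

open Finset Pool.Agent.OmQ

/-- the primes `1 mod b` in `[2^n, 2^(n+1))` -/
def PP (b n : ℕ) : Finset ℕ :=
  (Ico (2 ^ n) (2 ^ (n + 1))).filter (fun p => p.Prime ∧ p ≡ 1 [MOD b])

/-- `b` times the product of the primes `1 mod b` below `2^n` not dividing `b` -/
def QQ (b n : ℕ) : ℕ :=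
  b * ∏ p ∈ (range (2 ^ n)).filter (fun p => p.Prime ∧ p ≡ 1 [MOD b] ∧ ¬ p ∣ b), p

end Pool.Agent.TwQ
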