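import Pool.Agent.Lib_MP_f1a94e_ap.Recip

/-!
# MP_92ef0c_nt: lower bound for the product of 1 - K/p up to 2^m: at least a power of 1/m
-/

set_option autoImplicit false

namespace Pool.Agent.TwQ

open Finset Pool.Agent.OmAP

/-- `1 - x ≥ exp (-2x)` for `0 ≤ x ≤ 1/2` -/
theorem exp_neg_two_le {x : ℝ} (h0 : 0 ≤ x) (h1 : x ≤ 1 / 2) : Real.exp (-(2 * x)) ≤ 1 - x := by
  rw [Real.exp_neg]
  have h2 : 1 + 2 * x ≤ Real.exp (2 * x) := by
    have := Real.add_one_le_exp (2 * x)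
    linarith
  have h3 : (Real.exp (2 * x))⁻¹ ≤ (1 + 2 * x)⁻¹ := inv_anti₀ (by linarith) h2
  refine h3.trans ?_
  rw [inv_le_iff_one_le_mul₀ (by linarith)]
  nlinarith

/-- the sum of the reciprocals of the primes in `(2K, 2^m]` -/
theorem sum_recip_le (K : ℕ) (hK : 1 ≤ K) (m : ℕ) (hm : 1 ≤ m) :
    ∑ p ∈ Pool.Agent.OmAP.PP K (2 ^ m), (1 : ℝ) / p ≤ 4 * (1 + Real.log m) := by
  classical
  have hsub : Pool.Agent.OmAP.PP K (2 ^ m) ⊆
      (Ico 1 m).biUnion (fun L => (Ioc (2 ^ L) (2 * 2 ^ L)).filter Nat.Prime) := by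
    intro p hp
    rw [Pool.Agent.OmAP.PP, mem_filter, mem_Ioc] at hp
    obtain ⟨⟨h1, h2⟩, h3⟩ := hp
    have hp2 : 2 < p := by omega
    -- L = log2 (p - 1)
    have hp1 : p - 1 ≠ 0 := by omega
    rw [mem_biUnion]
    refine ⟨Nat.log 2 (p - 1), ?_, ?_⟩
    · rw [mem_Ico]
      constructor
      · apply Nat.le_log_of_pow_le (by norm_num)
        omega
      · apply Nat.log_lt_of_lt_pow hp1
        omega
    · rw [mem_filter, mem_Ioc]
      refine ⟨⟨?_, ?_⟩, h3⟩
      · have := Nat.pow_log_le_self 2 hp1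
        omega
      · have := Nat.lt_pow_succ_log_self (b := 2) (by norm_num) (p - 1)
        rw [pow_succ] at this
        omega
  calc ∑ p ∈ Pool.Agent.OmAP.PP K (2 ^ m), (1 : ℝ) / p
      ≤ ∑ p ∈ (Ico 1 m).biUnion (fun L => (Ioc (2 ^ L) (2 * 2 ^ L)).filter Nat.Prime),
          (1 : ℝ) / p := Finset.sum_le_sum_of_subset_of_nonneg hsub fun _ _ _ => by positivity
    _ ≤ ∑ L ∈ Ico 1 m, ∑ p ∈ (Ioc (2 ^ L) (2 * 2 ^ L)).filter Nat.Prime, (1 : ℝ) / p := by
        rw [Finset.sum_biUnion]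
        intro L _ L' _ hLL
        rw [Function.onFun, Finset.disjoint_left]
        intro p hp hp'
        rw [mem_filter, mem_Ioc] at hp hp'
        have key : ∀ {a b : ℕ}, 2 ^ a < p → p ≤ 2 * 2 ^ b → a ≤ b := by
          intro a b h1 h2
          by_contra hc
          have h3 : 2 ^ (b + 1) ≤ 2 ^ a := Nat.pow_le_pow_right (by norm_num) (by omega)
          rw [pow_succ] at h3
          omega
        exact hLL (le_antisymm (key hp.1.1 hp'.1.2) (key hp'.1.1 hp.1.2))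
    _ ≤ ∑ L ∈ Ico 1 m, 4 / (L : ℝ) := by
        apply Finset.sum_le_sum
        intro L hL
        rw [mem_Ico] at hL
        exact recip_dyadic L (2 ^ L) hL.1 le_rfl
    _ ≤ 4 * (1 + Real.log m) := by
        have h1 : ∑ L ∈ Ico 1 m, 4 / (L : ℝ) = 4 * ∑ L ∈ Ico 1 m, ((L : ℝ))⁻¹ := by
          rw [Finset.mul_sum]
          exact Finset.sum_congr rfl fun L _ => by rw [div_eq_mul_inv]
        rw [h1]
        apply mul_le_mul_of_nonneg_left _ (by norm_num)
        have h2 := harmonic_le_one_add_log m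
        refine le_trans ?_ h2
        rw [harmonic_eq_sum_Icc]
        push_cast
        apply Finset.sum_le_sum_of_subset_of_nonneg
        · intro L hL
          rw [mem_Ico] at hL
          rw [mem_Icc]
          omega
        · intro _ _ _
          positivity

/-- the product is at least `e^(-8K) m^(-8K)` -/
theorem prod_log_lower (K : ℕ) (hK : 1 ≤ K) (m : ℕ) (hm : 1 ≤ m) :
    Real.exp (-(8 * K)) / (m : ℝ) ^ (8 * K) ≤
      ∏ p ∈ Pool.Agent.OmAP.PP K (2 ^ m), (1 - (K : ℝ) / p) := by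
  have hm0 : (0 : ℝ) < m := by exact_mod_cast hm
  have h1 : ∏ p ∈ Pool.Agent.OmAP.PP K (2 ^ m), Real.exp (-(2 * ((K : ℝ) / p))) ≤
      ∏ p ∈ Pool.Agent.OmAP.PP K (2 ^ m), (1 - (K : ℝ) / p) := by
    apply Finset.prod_le_prod
    · intro p _
      positivity
    · intro p hp
      rw [Pool.Agent.OmAP.PP, mem_filter, mem_Ioc] at hp
      apply exp_neg_two_le (by positivity)
      have hp0 : (0 : ℝ) < p := by exact_mod_cast hp.2.pos
      rw [div_le_iff₀ hp0]
      have : (2 : ℝ) * K < p := by exact_mod_cast hp.1.1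
      linarith
  refine le_trans ?_ h1
  rw [← Real.exp_sum]
  have h2 : ∑ p ∈ Pool.Agent.OmAP.PP K (2 ^ m), -(2 * ((K : ℝ) / p)) =
      -(2 * K * ∑ p ∈ Pool.Agent.OmAP.PP K (2 ^ m), (1 : ℝ) / p) := by
    rw [Finset.mul_sum, ← Finset.sum_neg_distrib]
    exact Finset.sum_congr rfl fun p _ => by ring
  rw [h2]
  have h3 := sum_recip_le K hK m hm
  have h4 : Real.exp (-(8 * K)) / (m : ℝ) ^ (8 * K) =
      Real.exp (-(2 * K * (4 * (1 + Real.log m)))) := by
    have h5 : (m : ℝ) ^ (8 * K) = Real.exp ((8 * K : ℕ) * Real.log m) := by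
      rw [Real.exp_nat_mul, Real.exp_log hm0]
    rw [h5, ← Real.exp_sub]
    congr 1
    push_cast
    ring
  rw [h4]
  apply Real.exp_le_exp.2
  have h6 : (0 : ℝ) ≤ 2 * K := by positivity
  have h7 := mul_le_mul_of_nonneg_left h3 h6
  linarith

end Pool.Agent.TwQ
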