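import Pool.Agent.Lib_MP_92ef0c_ap.Cert
import Pool.Agent.Lib_MP_92ef0c_ap.ProdLog
import Pool.Agent.Lib_MP_f1a94e_ap.SieveApp

/-!
# MP_92ef0c_nt: the linear forms `z_i + W t`
-/

set_option autoImplicit false

namespace Pool.Agent.TwQ

open Finset ArithmeticFunction

/-- `d i + c` -/
def zz (d c i : ℕ) : ℕ := d * i + c

/-- fixed factor of the modulus -/
def FF (B K0 m : ℕ) : ℕ := B * K0.factorial * (2 * m).factorial

/-- modulus -/
def WW (d c B K0 m : ℕ) : ℕ := (∏ j ∈ Icc 1 m, zz d c j) * FF B K0 m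

/-- `W / z_i` -/
def gg (d c B K0 m i : ℕ) : ℕ := (∏ j ∈ (Icc 1 m).erase i, zz d c j) * FF B K0 m

theorem WW_eq (d c B K0 m i : ℕ) (hi : i ∈ Icc 1 m) : WW d c B K0 m = zz d c i * gg d c B K0 m i := by
  unfold WW gg
  rw [← mul_assoc, Finset.mul_prod_erase (Icc 1 m) (fun j => zz d c j) hi]

theorem FF_pos (B K0 m : ℕ) (hB : 0 < B) : 0 < FF B K0 m := by
  unfold FF
  have := Nat.factorial_pos K0
  have := Nat.factorial_pos (2 * m)
  positivity

theorem zz_pos (d c i : ℕ) (hd : 0 < d) (hi : 1 ≤ i) : 0 < zz d c i := by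
  unfold zz
  have := Nat.mul_pos hd hi
  omega

theorem WW_pos (d c B K0 m : ℕ) (hd : 0 < d) (hB : 0 < B) : 0 < WW d c B K0 m := by
  unfold WW
  refine Nat.mul_pos (Finset.prod_pos fun j hj => zz_pos d c j hd (mem_Icc.mp hj).1) (FF_pos _ _ _ hB)

/-- forbidden classes -/
def Om (d c B K0 m p : ℕ) : Finset ℕ :=
  (range p).filter fun t => ∃ i ∈ Icc 1 m, p ∣ 1 + gg d c B K0 m i * t

theorem Om_card (d c B K0 m p : ℕ) (hp : p.Prime) : (Om d c B K0 m p).card ≤ m := by
  classical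
  have h1 : Om d c B K0 m p ⊆ (Icc 1 m).biUnion fun i =>
      (range p).filter fun t => p ∣ 1 + gg d c B K0 m i * t := by
    intro t ht
    obtain ⟨ht1, i, hi, h⟩ := mem_filter.mp ht
    exact mem_biUnion.mpr ⟨i, hi, mem_filter.mpr ⟨ht1, h⟩⟩
  refine (card_le_card h1).trans ((card_biUnion_le_card_mul _ _ 1 fun i _ => ?_).trans ?_)
  · rw [card_le_one]
    intro t ht t' ht'
    obtain ⟨a1, a2⟩ := mem_filter.mp ht
    obtain ⟨b1, b2⟩ := mem_filter.mp ht'
    rw [mem_range] at a1 b1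
    have hg : ¬ p ∣ gg d c B K0 m i := by
      intro h
      have h2 : p ∣ 1 := (Nat.dvd_add_left (h.mul_right t)).mp a2
      exact hp.one_lt.ne' (Nat.dvd_one.mp h2)
    have h3 : 1 + gg d c B K0 m i * t ≡ 1 + gg d c B K0 m i * t' [MOD p] :=
      (Nat.modEq_zero_iff_dvd.mpr a2).trans (Nat.modEq_zero_iff_dvd.mpr b2).symm
    have h4 : gg d c B K0 m i * t ≡ gg d c B K0 m i * t' [MOD p] := Nat.ModEq.add_left_cancel' 1 h3
    have h5 : t ≡ t' [MOD p] :=
      Nat.ModEq.cancel_left_of_coprime (((Nat.Prime.coprime_iff_not_dvd hp).mpr hg)) h4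
    have h6 := h5
    unfold Nat.ModEq at h6
    rwa [Nat.mod_eq_of_lt a1, Nat.mod_eq_of_lt b1] at h6
  · rw [Nat.card_Icc]
    omega

/-- all prime factors of `1 + g_i t` are large -/
theorem rough (d c B K0 m y t : ℕ)
    (ht : ∀ p ∈ Pool.Agent.OmAP.PP m y, t % p ∉ Om d c B K0 m p) (i : ℕ) (hi : i ∈ Icc 1 m)
    (p : ℕ) (hp : p.Prime) (hpd : p ∣ 1 + gg d c B K0 m i * t) : y < p := by
  by_contra hle
  push Not at hle
  rcases Nat.lt_or_ge (2 * m) p with h1 | h1
  · have h2 : p ∈ Pool.Agent.OmAP.PP m y := by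
      rw [Pool.Agent.OmAP.PP, mem_filter, mem_Ioc]
      exact ⟨⟨h1, hle⟩, hp⟩
    apply ht p h2
    unfold Om
    rw [mem_filter, mem_range]
    refine ⟨Nat.mod_lt _ hp.pos, i, hi, ?_⟩
    have h3 : 1 + gg d c B K0 m i * (t % p) ≡ 1 + gg d c B K0 m i * t [MOD p] :=
      ((Nat.mod_modEq t p).mul_left _).add_left _
    exact Nat.modEq_zero_iff_dvd.mp (h3.trans (Nat.modEq_zero_iff_dvd.mpr hpd))
  · have h2 : p ∣ gg d c B K0 m i := by
      unfold gg FF
      exact ((Nat.dvd_factorial hp.pos h1).mul_left _).mul_left _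
    have h3 : p ∣ 1 := (Nat.dvd_add_left (h2.mul_right t)).mp hpd
    exact hp.one_lt.ne' (Nat.dvd_one.mp h3)

theorem pow_cardFactors_le (y r : ℕ) (hr : r ≠ 0) (h : ∀ p, p.Prime → p ∣ r → y ≤ p) :
    y ^ cardFactors r ≤ r := by
  rw [cardFactors_apply]
  calc y ^ r.primeFactorsList.length ≤ r.primeFactorsList.prod := by
        apply List.pow_card_le_prod
        intro x hx
        exact h x (Nat.prime_of_mem_primeFactorsList hx) (Nat.dvd_of_mem_primeFactorsList hx)
    _ = r := Nat.prod_primeFactorsList hr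

theorem cardFactors_le_self (s : ℕ) : cardFactors s ≤ s := by
  rcases Nat.eq_zero_or_pos s with h | h
  · subst h
    simp
  · have h1 := pow_cardFactors_le 2 s h.ne' fun p hp _ => hp.two_le
    exact (Nat.lt_two_pow_self).le.trans h1

/-- almost primes: `n = s r`, `s` bounded and every prime factor of `r` is at least a fixed power of `N` -/
def AP (R N n : ℕ) : Prop :=
  cardFactors n ≤ R ∧ ∃ s r : ℕ, n = s * r ∧ s ≤ R ∧ ∀ p, p.Prime → p ∣ r → N < p ^ R

theorem AP_mono {R R' N n : ℕ} (h : R ≤ R') (hn : AP R N n) : AP R' N n := by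
  obtain ⟨h1, s, r, h2, h3, h4⟩ := hn
  exact ⟨h1.trans h, s, r, h2, h3.trans h, fun p hp hpr =>
    (h4 p hp hpr).trans_le (Nat.pow_le_pow_right hp.pos h)⟩

/-- one form, divided by `k` -/
theorem AP_form (d c B K0 m y t N E : ℕ) (hd : 0 < d)
    (ht : ∀ p ∈ Pool.Agent.OmAP.PP m y, t % p ∉ Om d c B K0 m p) (i : ℕ) (hi : i ∈ Icc 1 m)
    (k n : ℕ) (hk : 0 < k) (hkz : k ∣ zz d c i) (hn : n * k = zz d c i + WW d c B K0 m * t)
    (hr : 1 + gg d c B K0 m i * t ≤ N) (hy : 0 < y) (hN : N < y ^ E) (hB : 0 < B) :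
    AP (WW d c B K0 m + E) N n := by
  have hz := zz_pos d c i hd (mem_Icc.mp hi).1
  have hW := WW_eq d c B K0 m i hi
  have hWpos := WW_pos d c B K0 m hd hB
  obtain ⟨s, hs⟩ := hkz
  have hs0 : 0 < s := by
    rcases Nat.eq_zero_or_pos s with h | h
    · subst h
      rw [Nat.mul_zero] at hs
      omega
    · exact h
  have hnr : n = s * (1 + gg d c B K0 m i * t) := by
    have h1 : n * k = (s * (1 + gg d c B K0 m i * t)) * k := by
      rw [hn, hW]
      calc zz d c i + zz d c i * gg d c B K0 m i * t = zz d c i * (1 + gg d c B K0 m i * t) := by ring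
        _ = (s * (1 + gg d c B K0 m i * t)) * k := by
            rw [hs]
            ring
    exact Nat.eq_of_mul_eq_mul_right hk h1
  have hsW : s ≤ WW d c B K0 m := by
    have h1 : s ≤ zz d c i := by
      rw [hs]
      exact Nat.le_mul_of_pos_left s hk
    exact h1.trans (Nat.le_of_dvd hWpos ⟨_, hW⟩)
  have hrough : ∀ p, p.Prime → p ∣ 1 + gg d c B K0 m i * t → y < p :=
    fun p hp hpr => rough d c B K0 m y t ht i hi p hp hpr
  have hr0 : 1 + gg d c B K0 m i * t ≠ 0 := by omega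
  have hΩr : cardFactors (1 + gg d c B K0 m i * t) ≤ E := by
    by_contra hc
    push Not at hc
    have h1 := pow_cardFactors_le y _ hr0 (fun p hp hpr => (hrough p hp hpr).le)
    have h2 : y ^ E ≤ y ^ cardFactors (1 + gg d c B K0 m i * t) := Nat.pow_le_pow_right hy hc.le
    omega
  refine ⟨?_, s, 1 + gg d c B K0 m i * t, hnr, hsW.trans (Nat.le_add_right _ _), ?_⟩
  · rw [hnr, cardFactors_mul hs0.ne' hr0]
    exact Nat.add_le_add ((cardFactors_le_self s).trans hsW) hΩr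
  · intro p hp hpr
    have h1 := hrough p hp hpr
    calc N < y ^ E := hN
      _ ≤ p ^ E := Nat.pow_le_pow_left h1.le E
      _ ≤ p ^ (WW d c B K0 m + E) := Nat.pow_le_pow_right hp.pos (Nat.le_add_left _ _)

end Pool.Agent.TwQ
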