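import Pool.Agent.Lib_MP_92ef0c_ap.Forms

/-!
# MP_92ef0c_nt: one value of `t` gives one pair
-/

set_option autoImplicit false

namespace Pool.Agent.TwQ

open Finset ArithmeticFunction

theorem cardFactors_sqf {k : ℕ} (hk : Squarefree k) : cardFactors k = k.primeFactors.card := by
  rw [← (cardDistinctFactors_eq_cardFactors_iff_squarefree hk.ne_zero).mpr hk,
    cardDistinctFactors_apply]
  rfl

theorem one_t (q : ℕ) [NeZero q] (TT : Set (ZMod q × ZMod q)) (d B c : ℕ) (hd : 0 < d) (hB : 0 < B)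
    (I K0 : ℕ) (hI : 0 < I)
    (hcert : ∀ X : ℕ → ZMod q, ∃ i k : ℕ, I ≤ i ∧ i < 2 * I ∧ B ∣ i ∧ 0 < k ∧ k ≤ K0 ∧
      Squarefree k ∧ k ≡ 1 [MOD B] ∧ k ∣ d * i + c ∧
      (X i - (k.primeFactors.card : ZMod q), X (i + k) - (k.primeFactors.card : ZMod q)) ∈ TT)
    (m : ℕ) (hm : m = 2 * I + K0) (y t N E : ℕ)
    (ht : ∀ p ∈ Pool.Agent.OmAP.PP m y, t % p ∉ Om d c B K0 m p)
    (htN : WW d c B K0 m * (t + 1) ≤ N) (hy : 0 < y) (hN : N < y ^ E) :
    ∃ i k n : ℕ, i ≤ m ∧ k ≤ m ∧ n * k = zz d c i + WW d c B K0 m * t ∧ 1 ≤ n ∧ n ≤ N ∧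
      n ≡ c [MOD B] ∧ AP (WW d c B K0 m + E) N n ∧ AP (WW d c B K0 m + E) N (n + d) ∧
      ((cardFactors n : ZMod q), (cardFactors (n + d) : ZMod q)) ∈ TT := by
  obtain ⟨i, k, hi1, hi2, hBi, hk0, hkK, hsq, hkB, hkd, hT⟩ :=
    hcert (fun j => (cardFactors (zz d c j + WW d c B K0 m * t) : ZMod q))
  have hWpos := WW_pos d c B K0 m hd hB
  have hik : i ∈ Icc 1 m := by rw [mem_Icc]; omega
  have hik' : i + k ∈ Icc 1 m := by rw [mem_Icc]; omega
  have hFW : FF B K0 m ∣ WW d c B K0 m := Dvd.intro_left _ rfl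
  have hkW : k ∣ WW d c B K0 m := by
    refine Dvd.dvd.trans ?_ hFW
    unfold FF
    exact ((Nat.dvd_factorial hk0 hkK).mul_left B).mul_right _
  have hBW : B ∣ WW d c B K0 m := by
    refine Dvd.dvd.trans ?_ hFW
    unfold FF
    rw [mul_assoc]
    exact dvd_mul_right _ _
  have hkz : k ∣ zz d c i := hkd
  obtain ⟨n, hn⟩ : k ∣ zz d c i + WW d c B K0 m * t := dvd_add hkz (hkW.mul_right t)
  have hn' : n * k = zz d c i + WW d c B K0 m * t := by rw [hn, mul_comm]
  have hzi := zz_pos d c i hd (mem_Icc.mp hik).1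
  have hzik := zz_pos d c (i + k) hd (mem_Icc.mp hik').1
  have hn0 : 0 < n := by
    rcases Nat.eq_zero_or_pos n with h | h
    · subst h
      rw [Nat.zero_mul] at hn'
      omega
    · exact h
  have hz_le : ∀ j ∈ Icc 1 m, zz d c j ≤ WW d c B K0 m := fun j hj =>
    Nat.le_of_dvd hWpos ⟨_, WW_eq d c B K0 m j hj⟩
  have hg_le : ∀ j ∈ Icc 1 m, gg d c B K0 m j ≤ WW d c B K0 m := fun j hj =>
    Nat.le_of_dvd hWpos ⟨_, (WW_eq d c B K0 m j hj).trans (mul_comm _ _)⟩
  have hWt : WW d c B K0 m + WW d c B K0 m * t ≤ N := by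
    have : WW d c B K0 m * (t + 1) = WW d c B K0 m + WW d c B K0 m * t := by ring
    omega
  have hr : ∀ j ∈ Icc 1 m, 1 + gg d c B K0 m j * t ≤ N := by
    intro j hj
    have h1 := Nat.mul_le_mul_right t (hg_le j hj)
    omega
  have hnd : (n + d) * k = zz d c (i + k) + WW d c B K0 m * t := by
    rw [Nat.add_mul, hn']
    unfold zz
    ring
  have hkz' : k ∣ zz d c (i + k) := by
    have h1 : zz d c (i + k) = zz d c i + d * k := by unfold zz; ring
    rw [h1]
    exact dvd_add hkz (dvd_mul_left k d)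
  refine ⟨i, k, n, (mem_Icc.mp hik).2, by omega, hn', hn0, ?_, ?_, ?_, ?_, ?_⟩
  · have h1 : n ≤ n * k := Nat.le_mul_of_pos_right n hk0
    have h2 := hz_le i hik
    omega
  · have h1 : n * k ≡ n * 1 [MOD B] := hkB.mul_left n
    have h2 : n * k ≡ c [MOD B] := by
      rw [hn']
      have h3 : zz d c i + WW d c B K0 m * t ≡ 0 + c + 0 [MOD B] := by
        unfold zz
        refine (Nat.ModEq.add_right _ ?_).add ?_
        · exact Nat.modEq_zero_iff_dvd.mpr (hBi.mul_left d)
        · exact Nat.modEq_zero_iff_dvd.mpr (hBW.mul_right t)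
      simpa using h3
    have h4 := h1.symm.trans h2
    rwa [mul_one] at h4
  · exact AP_form d c B K0 m y t N E hd ht i hik k n hk0 hkz hn' (hr i hik) hy hN hB
  · exact AP_form d c B K0 m y t N E hd ht (i + k) hik' k (n + d) hk0 hkz' hnd (hr _ hik') hy hN hB
  · have h1 : (cardFactors n : ZMod q) =
        (cardFactors (zz d c i + WW d c B K0 m * t) : ZMod q) - (k.primeFactors.card : ZMod q) := by
      rw [← hn', cardFactors_mul hn0.ne' hk0.ne', cardFactors_sqf hsq]
      push_cast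
      ring
    have h2 : (cardFactors (n + d) : ZMod q) =
        (cardFactors (zz d c (i + k) + WW d c B K0 m * t) : ZMod q) -
          (k.primeFactors.card : ZMod q) := by
      rw [← hnd, cardFactors_mul (by omega) hk0.ne', cardFactors_sqf hsq]
      push_cast
      ring
    rw [h1, h2]
    exact hT

/-- one `n` comes from few `t` -/
theorem card_fibre (d c W m n : ℕ) (hW : 0 < W) (S : Finset ℕ)
    (hS : ∀ t ∈ S, ∃ i k : ℕ, i ≤ m ∧ k ≤ m ∧ n * k = zz d c i + W * t) :
    S.card ≤ (m + 1) * (m + 1) := by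
  classical
  choose! i k hi hk h using hS
  have h1 : S.card ≤ ((range (m + 1)) ×ˢ (range (m + 1))).card := by
    refine Finset.card_le_card_of_injOn (fun t => (i t, k t)) ?_ ?_
    · intro t ht
      rw [Finset.mem_coe, mem_product, mem_range, mem_range]
      exact ⟨Nat.lt_succ_of_le (hi t ht), Nat.lt_succ_of_le (hk t ht)⟩
    · intro t ht t' ht' he
      simp only [Prod.mk.injEq] at he
      have h2 := h t ht
      have h3 := h t' ht'
      rw [he.1, he.2] at h2
      rw [h2] at h3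
      have h4 : W * t = W * t' := by omega
      exact Nat.eq_of_mul_eq_mul_left hW h4
  rwa [card_product, card_range] at h1

end Pool.Agent.TwQ
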