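import Pool.Agent.Lib_MP_92ef0c_ap.Defs
import Pool.Agent.Lib_MP_f1a94e_q.Primes2

set_option autoImplicit false

namespace Pool.Agent.TwQ

open Finset LibLS Pool.Agent.OmQ

open ArithmeticFunction.vonMangoldt

/-- the prime part of the residue class function -/
noncomputable def prpart (b n : ℕ) : ℝ := if n.Prime then residueClass (1 : ZMod b) n else 0

/-- the non prime part of the residue class function -/
noncomputable def nprpart (b n : ℕ) : ℝ := if n.Prime then 0 else residueClass (1 : ZMod b) n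

lemma prpart_nonneg (b n : ℕ) : 0 ≤ prpart b n := by
  unfold prpart
  split_ifs
  · exact residueClass_nonneg _ _
  · exact le_rfl

lemma nprpart_nonneg (b n : ℕ) : 0 ≤ nprpart b n := by
  unfold nprpart
  split_ifs
  · exact le_rfl
  · exact residueClass_nonneg _ _

lemma prpart_add (b n : ℕ) : prpart b n + nprpart b n = residueClass (1 : ZMod b) n := by
  unfold prpart nprpart
  split_ifs <;> simp

lemma prpart_zero (b : ℕ) : prpart b 0 = 0 := by
  unfold prpart
  rw [if_neg (by norm_num)]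

lemma prpart_of_not_mem {b k n : ℕ} (hn : n ∈ Ico (2 ^ k) (2 ^ (k + 1))) (h : n ∉ PP b k) :
    prpart b n = 0 := by
  unfold prpart
  split_ifs with hp
  · have h4 : ¬ n ≡ 1 [MOD b] := by
      intro h4
      apply h
      unfold PP
      rw [mem_filter]
      exact ⟨hn, hp, h4⟩
    apply Set.indicator_of_notMem
    intro hmem
    apply h4
    have h5 : (n : ZMod b) = ((1 : ℕ) : ZMod b) := by
      rw [Nat.cast_one]
      exact hmem
    rw [ZMod.natCast_eq_natCast_iff] at h5
    exact h5
  · rfl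

lemma prpart_le {b k n : ℕ} (hn : n ∈ Ico (2 ^ k) (2 ^ (k + 1))) :
    prpart b n ≤ (k + 1) * Real.log 2 := by
  have hn' := mem_Ico.1 hn
  have hpos : 0 < n := lt_of_lt_of_le (by positivity) hn'.1
  have hlog : Real.log n ≤ (k + 1) * Real.log 2 := by
    have h1 : (n : ℝ) ≤ 2 ^ (k + 1) := by exact_mod_cast hn'.2.le
    have h2 : Real.log n ≤ Real.log ((2 : ℝ) ^ (k + 1)) :=
      Real.log_le_log (by exact_mod_cast hpos) h1
    rw [Real.log_pow] at h2
    push_cast at h2
    exact h2
  have hl0 : (0 : ℝ) ≤ (k + 1) * Real.log 2 := by positivity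
  unfold prpart
  split_ifs with hp
  · refine le_trans (residueClass_le _ _) ?_
    rw [ArithmeticFunction.vonMangoldt_apply_prime hp]
    exact hlog
  · exact hl0

/-- dyadic blocks -/
lemma prpart_block (b k : ℕ) {x : ℝ} (hx : 0 ≤ x) :
    ∑ n ∈ Ico (2 ^ k) (2 ^ (k + 1)), prpart b n / (n : ℝ) ^ x ≤
      ((PP b k).card : ℝ) * ((k + 1) * Real.log 2) / ((2 : ℝ) ^ k) ^ x := by
  have hsub : PP b k ⊆ Ico (2 ^ k) (2 ^ (k + 1)) := filter_subset _ _
  rw [← Finset.sum_subset hsub (fun n hn h => by rw [prpart_of_not_mem hn h, zero_div])]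
  have : ∀ n ∈ PP b k, prpart b n / (n : ℝ) ^ x ≤ ((k + 1) * Real.log 2) / ((2 : ℝ) ^ k) ^ x := by
    intro n hn
    have hn1 := hsub hn
    have hn2 := (mem_Ico.1 hn1).1
    have h1 := prpart_le (b := b) hn1
    have h2 : ((2 : ℝ) ^ k) ^ x ≤ (n : ℝ) ^ x := by
      apply Real.rpow_le_rpow (by positivity) _ hx
      exact_mod_cast hn2
    have h3 : 0 < ((2 : ℝ) ^ k) ^ x := by positivity
    exact div_le_div₀ (le_trans (prpart_nonneg b n) h1) h1 h3 h2
  refine le_trans (Finset.sum_le_card_nsmul _ _ _ this) (le_of_eq ?_)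
  rw [nsmul_eq_mul]
  ring

lemma prpart_range (b K : ℕ) {x : ℝ} (hx : 0 < x) :
    ∑ n ∈ range (2 ^ K), prpart b n / (n : ℝ) ^ x ≤
      ∑ k ∈ range K, ((PP b k).card : ℝ) * ((k + 1) * Real.log 2) / ((2 : ℝ) ^ k) ^ x := by
  induction K with
  | zero => simp [prpart_zero]
  | succ K ih =>
    rw [Finset.sum_range_succ, ← Finset.sum_range_add_sum_Ico _
      (Nat.pow_le_pow_right (by norm_num) (Nat.le_succ K) : 2 ^ K ≤ 2 ^ (K + 1))]
    exact add_le_add ih (prpart_block b K hx.le)

lemma prpart_tsum_le (b : ℕ) {x B : ℝ} (hx : 0 < x)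
    (h : ∀ K : ℕ, ∑ k ∈ range K, ((PP b k).card : ℝ) * ((k + 1) * Real.log 2) / ((2 : ℝ) ^ k) ^ x ≤ B) :
    ∑' n, prpart b n / (n : ℝ) ^ x ≤ B := by
  apply Real.tsum_le_of_sum_range_le
  · intro n
    exact div_nonneg (prpart_nonneg b n) (by positivity)
  · intro n
    refine le_trans ?_ (le_trans (prpart_range b n hx) (h n))
    apply Finset.sum_le_sum_of_subset_of_nonneg
    · exact range_subset_range.2 (Nat.lt_two_pow_self).le
    · intro i _ _
      exact div_nonneg (prpart_nonneg b i) (by positivity)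

lemma lower_bound (b : ℕ) [NeZero b] : ∃ C : ℝ, ∀ t : ℝ, 0 < t → t ≤ 1 →
    1 / (Nat.totient b * t) - C ≤ ∑' n, prpart b n / (n : ℝ) ^ (1 + t) := by
  obtain ⟨C, hC⟩ := LSeries_residueClass_lower_bound (q := b) (a := 1) isUnit_one
  have hnp : Summable fun n : ℕ => nprpart b n / (n : ℝ) :=
    summable_residueClass_non_primes_div (1 : ZMod b)
  refine ⟨C + ∑' n, nprpart b n / (n : ℝ), fun t ht ht1 => ?_⟩
  have h1 := hC (x := 1 + t) ⟨by linarith, by linarith⟩
  have hs : Summable fun n : ℕ => residueClass (1 : ZMod b) n / (n : ℝ) ^ (1 + t) :=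
    LSeries.summable_real_of_abscissaOfAbsConv_lt <|
        (abscissaOfAbsConv_residueClass_le_one (1 : ZMod b)).trans_lt <| by
          exact_mod_cast (by linarith : (1 : ℝ) < 1 + t)
  have hs1 : Summable fun n : ℕ => prpart b n / (n : ℝ) ^ (1 + t) := by
    refine hs.of_nonneg_of_le (fun n => div_nonneg (prpart_nonneg b n) (by positivity)) (fun n => ?_)
    have := prpart_add b n
    have := nprpart_nonneg b n
    gcongr
    linarith
  have hs2 : Summable fun n : ℕ => nprpart b n / (n : ℝ) ^ (1 + t) := by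
    refine hs.of_nonneg_of_le (fun n => div_nonneg (nprpart_nonneg b n) (by positivity)) (fun n => ?_)
    have := prpart_add b n
    have := prpart_nonneg b n
    gcongr
    linarith
  have h2 : ∑' n, residueClass (1 : ZMod b) n / (n : ℝ) ^ (1 + t)
      = (∑' n, prpart b n / (n : ℝ) ^ (1 + t)) + ∑' n, nprpart b n / (n : ℝ) ^ (1 + t) := by
    rw [← hs1.tsum_add hs2]
    refine tsum_congr fun n => ?_
    rw [← prpart_add b n, add_div]
  have h3 : ∑' n, nprpart b n / (n : ℝ) ^ (1 + t) ≤ ∑' n, nprpart b n / (n : ℝ) := by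
    refine hs2.tsum_le_tsum (fun n => ?_) hnp
    rcases n.eq_zero_or_pos with rfl | hn
    · simp [nprpart]
    · refine div_le_div_of_nonneg_left (nprpart_nonneg b n) (by exact_mod_cast hn) ?_
      conv_lhs => rw [← Real.rpow_one (n : ℝ)]
      exact Real.rpow_le_rpow_of_exponent_le (by exact_mod_cast hn) (by linarith)
  have h4 : ((Nat.totient b : ℕ) : ℝ)⁻¹ / (1 + t - 1) = 1 / (Nat.totient b * t) := by
    rw [add_sub_cancel_left, one_div, mul_inv, div_eq_mul_inv]
  rw [h4] at h1
  linarith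

open Classical in
/-- PRIMES2 -/
theorem primes_scale (b : ℕ) (hb : 0 < b) : ∃ c0 : ℝ, 0 < c0 ∧ ∀ (n0 : ℕ) (M : ℝ), ∃ n1, n0 < n1 ∧
    M ≤ ∑ n ∈ (Ico n0 n1).filter (fun n => c0 * (2 ^ n / n) ≤ ((PP b n).card : ℝ)),
      ((PP b n).card : ℝ) / 2 ^ n := by
  have : NeZero b := ⟨hb.ne'⟩
  obtain ⟨φ, hφ⟩ : ∃ φ : ℝ, φ = (Nat.totient b : ℝ) := ⟨_, rfl⟩
  have hφ1 : 1 ≤ φ := by
    rw [hφ]
    exact_mod_cast Nat.totient_pos.2 hb
  have hφ0 : 0 < φ := by linarith
  refine ⟨1 / (8 * φ), by positivity, fun n0 M => ?_⟩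
  by_contra hcon
  push Not at hcon
  -- the good scales
  set good : ℕ → Prop := fun n => (1 / (8 * φ) : ℝ) * (2 ^ n / n) ≤ ((PP b n).card : ℝ) with hgood
  set g : ℕ → ℝ := fun n => if n0 ≤ n ∧ good n then ((PP b n).card : ℝ) / 2 ^ n else 0 with hg
  have hg0 : ∀ n, 0 ≤ g n := by
    intro n
    simp only [hg]
    split_ifs
    · positivity
    · exact le_rfl
  have hsum : Summable g := by
    apply summable_of_sum_range_le (c := M) hg0
    intro n
    have h1 := hcon (max (n0 + 1) n) (lt_of_lt_of_le (Nat.lt_succ_self n0) (le_max_left _ _))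
    refine le_trans ?_ h1.le
    rw [Finset.sum_filter]
    calc ∑ i ∈ range n, g i ≤ ∑ i ∈ range (max (n0 + 1) n), g i := by
          apply Finset.sum_le_sum_of_subset_of_nonneg
          · exact range_subset_range.2 (le_max_right _ _)
          · intro i _ _
            exact hg0 i
      _ = ∑ i ∈ Ico n0 (max (n0 + 1) n), g i := by
          rw [← Finset.sum_range_add_sum_Ico g
            (le_trans (Nat.le_succ n0) (le_max_left _ _) : n0 ≤ max (n0 + 1) n)]
          have : ∑ i ∈ range n0, g i = 0 := by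
            apply Finset.sum_eq_zero
            intro i hi
            simp only [hg]
            rw [if_neg]
            rintro ⟨h, _⟩
            exact absurd (mem_range.1 hi) (not_lt.2 h)
          rw [this, zero_add]
      _ ≤ ∑ i ∈ Ico n0 (max (n0 + 1) n),
          if (1 / (8 * φ) : ℝ) * (2 ^ i / i) ≤ ((PP b i).card : ℝ) then ((PP b i).card : ℝ) / 2 ^ i else 0 := by
          apply Finset.sum_le_sum
          intro i hi
          simp only [hg]
          by_cases hgi : good i
          · rw [if_pos ⟨(mem_Ico.1 hi).1, hgi⟩, if_pos hgi]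
          · rw [if_neg (fun h => hgi h.2), if_neg hgi]
  -- the tail
  obtain ⟨K0, hK0⟩ : ∃ K0 : ℕ, ∑' k, g (k + K0) ≤ 1 / (8 * φ) := by
    have h1 := tendsto_sum_nat_add g
    have h2 := (h1.eventually (gt_mem_nhds (by positivity : (0 : ℝ) < 1 / (8 * φ)))).exists
    obtain ⟨K0, h⟩ := h2
    exact ⟨K0, h.le⟩
  obtain ⟨C, hC⟩ := lower_bound b
  set J := max K0 n0 with hJ
  -- the main estimate
  have hcard : ∀ k, ((PP b k).card : ℝ) ≤ 2 ^ k := by
    intro k
    have h1 : (PP b k).card ≤ (Ico (2 ^ k) (2 ^ (k + 1))).card := card_le_card (filter_subset _ _)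
    have h2 : (Ico (2 ^ k) (2 ^ (k + 1))).card = 2 ^ k := by
      rw [Nat.card_Ico, pow_succ]
      omega
    rw [h2] at h1
    exact_mod_cast h1
  have hl := Real.log_two_lt_d9
  have hl0 : 0 < Real.log 2 := Real.log_pos (by norm_num)
  have main : ∀ t : ℝ, 0 < t → t ≤ 1 → ∀ K : ℕ,
      ∑ k ∈ range K, ((PP b k).card : ℝ) * ((k + 1) * Real.log 2) / ((2 : ℝ) ^ k) ^ (1 + t) ≤
        (∑ k ∈ range J, ((k : ℝ) + 1)) + 1 / (2 * φ * t) := by
    intro t ht ht1 K
    -- termwise bound
    have hterm : ∀ k : ℕ, ((PP b k).card : ℝ) * ((k + 1) * Real.log 2) / ((2 : ℝ) ^ k) ^ (1 + t) ≤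
        (if k < J then (k : ℝ) + 1 else 0)
        + (if J ≤ k then g k * (2 / t) else 0)
        + (if k = 0 then 0 else (1 / (4 * φ)) * (Real.log 2 / ((2 : ℝ) ^ k) ^ t)) := by
      intro k
      have h2k : (0 : ℝ) < 2 ^ k := by positivity
      have h2kt : (1 : ℝ) ≤ ((2 : ℝ) ^ k) ^ t :=
        Real.one_le_rpow (one_le_pow₀ (by norm_num)) ht.le
      have hsplit : ((2 : ℝ) ^ k) ^ (1 + t) = 2 ^ k * ((2 : ℝ) ^ k) ^ t := by
        rw [Real.rpow_add h2k, Real.rpow_one]
      rw [hsplit]
      have hthird : 0 ≤ (if k = 0 then 0 else (1 / (4 * φ)) * (Real.log 2 / ((2 : ℝ) ^ k) ^ t)) := by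
        split_ifs
        · exact le_rfl
        · positivity
      by_cases hkJ : k < J
      · rw [if_pos hkJ, if_neg (not_le.2 hkJ), add_zero]
        have h1 : ((PP b k).card : ℝ) * ((k + 1) * Real.log 2) / (2 ^ k * ((2 : ℝ) ^ k) ^ t) ≤ (k : ℝ) + 1 := by
          rw [div_le_iff₀ (by positivity)]
          calc ((PP b k).card : ℝ) * ((k + 1) * Real.log 2) ≤ 2 ^ k * ((k + 1) * 1) := by
                gcongr
                · exact hcard k
                · linarith
            _ = (k + 1) * (2 ^ k * 1) := by ring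
            _ ≤ (k + 1) * (2 ^ k * ((2 : ℝ) ^ k) ^ t) := by gcongr
        linarith
      · rw [if_neg hkJ, if_pos (not_lt.1 hkJ), zero_add]
        have hkn0 : n0 ≤ k := le_trans (le_max_right _ _) (not_lt.1 hkJ)
        by_cases hgk : good k
        · have hgk' : g k = ((PP b k).card : ℝ) / 2 ^ k := by
            simp only [hg]
            rw [if_pos ⟨hkn0, hgk⟩]
          have h1 : ((PP b k).card : ℝ) * ((k + 1) * Real.log 2) / (2 ^ k * ((2 : ℝ) ^ k) ^ t)
              = g k * ((k + 1) * Real.log 2 / ((2 : ℝ) ^ k) ^ t) := by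
            rw [hgk', div_mul_div_comm]
          rw [h1]
          have h2 := mul_le_mul_of_nonneg_left (weight_le k ht ht1) (hg0 k)
          linarith
        · have hk0 : k ≠ 0 := by
            rintro rfl
            apply hgk
            simp only [hgood]
            norm_num
          rw [if_neg hk0]
          have hkpos : (0 : ℝ) < k := by exact_mod_cast Nat.pos_of_ne_zero hk0
          have hk1 : (1 : ℝ) ≤ k := by exact_mod_cast Nat.one_le_iff_ne_zero.2 hk0
          have h1 : ((PP b k).card : ℝ) ≤ (1 / (8 * φ) : ℝ) * (2 ^ k / k) := (not_le.1 hgk).le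
          have h2 : ((PP b k).card : ℝ) * ((k + 1) * Real.log 2) / (2 ^ k * ((2 : ℝ) ^ k) ^ t) ≤
              (1 / (4 * φ)) * (Real.log 2 / ((2 : ℝ) ^ k) ^ t) := by
            rw [div_le_iff₀ (by positivity)]
            calc ((PP b k).card : ℝ) * ((k + 1) * Real.log 2)
                ≤ ((1 / (8 * φ) : ℝ) * (2 ^ k / k)) * ((k + k) * Real.log 2) := by gcongr
              _ = (1 / (4 * φ)) * (Real.log 2 / ((2 : ℝ) ^ k) ^ t) * (2 ^ k * ((2 : ℝ) ^ k) ^ t) := by
                field_simp
                ring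
          have h3 : 0 ≤ g k * (2 / t) := mul_nonneg (hg0 k) (by positivity)
          linarith
    refine le_trans (Finset.sum_le_sum fun k _ => hterm k) ?_
    rw [Finset.sum_add_distrib, Finset.sum_add_distrib]
    have e1 : ∑ k ∈ range K, (if k < J then (k : ℝ) + 1 else 0) ≤ ∑ k ∈ range J, ((k : ℝ) + 1) := by
      rw [← Finset.sum_filter]
      apply Finset.sum_le_sum_of_subset_of_nonneg
      · intro k hk
        rw [mem_filter] at hk
        exact mem_range.2 hk.2
      · intro i _ _
        positivity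
    have e2 : ∑ k ∈ range K, (if J ≤ k then g k * (2 / t) else 0) ≤ 1 / (4 * φ * t) := by
      rw [← Finset.sum_filter, ← Finset.sum_mul]
      have e3 : ∑ k ∈ (range K).filter (fun k => J ≤ k), g k ≤ ∑' k, g (k + K0) := by
        have e4 : ∑ k ∈ (range K).filter (fun k => J ≤ k), g k
            ≤ ∑ k ∈ (range K).image (fun k => k + K0), g k := by
          apply Finset.sum_le_sum_of_subset_of_nonneg
          · intro k hk
            rw [mem_filter, mem_range] at hk
            rw [mem_image]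
            have : K0 ≤ k := le_trans (le_max_left _ _) hk.2
            exact ⟨k - K0, mem_range.2 (by omega), by omega⟩
          · intro i _ _
            exact hg0 i
        refine le_trans e4 ?_
        rw [Finset.sum_image (fun a _ b _ h => by simpa using h)]
        exact Summable.sum_le_tsum _ (fun i _ => hg0 _)
          ((summable_nat_add_iff K0).2 hsum)
      calc (∑ k ∈ (range K).filter (fun k => J ≤ k), g k) * (2 / t) ≤ (1 / (8 * φ)) * (2 / t) := by
            gcongr
            exact le_trans e3 hK0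
        _ = 1 / (4 * φ * t) := by field_simp; norm_num
    have e5 : ∑ k ∈ range K, (if k = 0 then 0 else (1 / (4 * φ)) * (Real.log 2 / ((2 : ℝ) ^ k) ^ t))
        ≤ 1 / (4 * φ * t) := by
      rcases K with _ | K
      · simp
        positivity
      · rw [Finset.sum_range_succ']
        simp only [Nat.add_eq_zero_iff, one_ne_zero, and_false, if_false, if_true, add_zero]
        rw [← Finset.mul_sum]
        have := geom_le ht K
        calc (1 / (4 * φ) : ℝ) * ∑ k ∈ range K, Real.log 2 / ((2 : ℝ) ^ (k + 1)) ^ t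
            ≤ (1 / (4 * φ)) * (1 / t) := by gcongr
          _ = 1 / (4 * φ * t) := by field_simp
    have e6 : 1 / (4 * φ * t) + 1 / (4 * φ * t) = 1 / (2 * φ * t) := by field_simp; norm_num
    linarith
  set D : ℝ := ∑ k ∈ range J, ((k : ℝ) + 1) with hD
  have hD0 : 0 ≤ D := Finset.sum_nonneg fun k _ => by positivity
  -- contradiction
  have hfin : ∀ t : ℝ, 0 < t → t ≤ 1 → 1 / (2 * φ * t) ≤ C + D := by
    intro t ht ht1
    have h1 := hC t ht ht1
    have h2 := prpart_tsum_le b (by linarith : 0 < 1 + t) (main t ht ht1)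
    have h3 : 1 / (φ * t) = 1 / (2 * φ * t) + 1 / (2 * φ * t) := by field_simp; norm_num
    rw [← hφ] at h1
    linarith
  have hCD : 0 < C + D := lt_of_lt_of_le (by positivity) (hfin 1 one_pos le_rfl)
  have ht : 0 < min 1 (1 / (4 * φ * (C + D))) := by positivity
  have h1 := hfin _ ht (min_le_left _ _)
  have h2 : min 1 (1 / (4 * φ * (C + D))) ≤ 1 / (4 * φ * (C + D)) := min_le_right _ _
  have h3 : 2 * (C + D) ≤ 1 / (2 * φ * min 1 (1 / (4 * φ * (C + D)))) := by
    rw [le_div_iff₀ (by positivity)]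
    calc 2 * (C + D) * (2 * φ * min 1 (1 / (4 * φ * (C + D))))
        ≤ 2 * (C + D) * (2 * φ * (1 / (4 * φ * (C + D)))) := by
          gcongr
      _ = 1 := by field_simp; norm_num
  linarith

end Pool.Agent.TwQ
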