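import Pool.Agent.Lib_MP_f1a94e_q.ThmC
import Pool.Agent.Lib_MP_92ef0c_ap.ThmS

set_option autoImplicit false

namespace Pool.Agent.TwQ

open Finset LibLS Pool.Agent.OmQ

/-- THMC -/
theorem thmC (q : ℕ) [NeZero q] (TT : Set (ZMod q × ZMod q))
    (hTT : ∀ c c' : ZMod q, ∃ j : ℕ, (c - (j : ZMod q), c' - (j : ZMod q)) ∈ TT)
    (b : ℕ) (hb : 0 < b) :
    ∃ (K0 Pi : ℕ) (ε0 : ℝ), 0 < Pi ∧ b ∣ Pi ∧ 0 < ε0 ∧ ∀ (N : ℕ) [NeZero N], Pi ∣ N →
      ∀ (X Y : ZMod N → ZMod q) (A A' : ZMod N → Prop) (ρ : ℕ → ℕ),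
      (∀ i, A (i + (b : ZMod N)) ↔ A i) → (∀ i, A' (i + (b : ZMod N)) ↔ A' i) →
      (∀ h : ℕ, h ≡ 1 [MOD b] → ∃ i : ZMod N, A i ∧ A' (i + (h : ZMod N))) →
      ε0 ≤ Av (fun i => ind (Good K0 b ρ TT X Y A A' i)) := by
  have hq0 : (0 : ℝ) < q := by exact_mod_cast Nat.pos_of_ne_zero (NeZero.ne q)
  have hb0 : (0 : ℝ) < b := by exact_mod_cast hb
  obtain ⟨K0, Pi, ε0, hPi, hbPi, hε, hmain⟩ := thmS q TT b hb (1 / (2 * b * (q : ℝ) ^ 2))
    (by positivity)
  refine ⟨K0, Pi, ε0, hPi, hbPi, hε, ?_⟩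
  intro N _ hPiN X Y A A' ρ hA hA' hex
  by_contra hlt
  rw [not_le] at hlt
  obtain ⟨W, T, n, hW, hT, hbW, hcard, hbn, hcc⟩ := hmain N hPiN X Y A A' ρ hlt
  have hcard' : (0 : ℝ) < (PP b n).card := by exact_mod_cast hcard
  -- sum over all pairs
  have hupper : ∑ c : ZMod q, ∑ c' : ZMod q, ∑ p ∈ PP b n, Av (fun i => ind (A i ∧ X i = c) *
      avW W T (fun i => ind (A' i ∧ Y i = c')) (i + ((p % W : ℕ) : ZMod N))) ≤
      (PP b n).card / (2 * b) := by
    calc ∑ c : ZMod q, ∑ c' : ZMod q, ∑ p ∈ PP b n, Av (fun i => ind (A i ∧ X i = c) *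
          avW W T (fun i => ind (A' i ∧ Y i = c')) (i + ((p % W : ℕ) : ZMod N)))
        ≤ ∑ c : ZMod q, ∑ c' : ZMod q, 1 / (2 * b * (q : ℝ) ^ 2) * (PP b n).card :=
          sum_le_sum fun c _ => sum_le_sum fun c' _ => hcc c c' (hTT c c')
      _ = (PP b n).card / (2 * b) := by
          simp only [sum_const, card_univ, ZMod.card, nsmul_eq_mul]
          field_simp
  have hlower : (PP b n).card / (b : ℝ) ≤
      ∑ c : ZMod q, ∑ c' : ZMod q, ∑ p ∈ PP b n, Av (fun i => ind (A i ∧ X i = c) *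
      avW W T (fun i => ind (A' i ∧ Y i = c')) (i + ((p % W : ℕ) : ZMod N))) := by
    have hswap : ∑ c : ZMod q, ∑ c' : ZMod q, ∑ p ∈ PP b n, Av (fun i => ind (A i ∧ X i = c) *
        avW W T (fun i => ind (A' i ∧ Y i = c')) (i + ((p % W : ℕ) : ZMod N))) =
        ∑ p ∈ PP b n, ∑ c : ZMod q, ∑ c' : ZMod q, Av (fun i => ind (A i ∧ X i = c) *
        avW W T (fun i => ind (A' i ∧ Y i = c')) (i + ((p % W : ℕ) : ZMod N))) := by
      rw [sum_comm]
      rw [sum_congr rfl fun c' _ => sum_comm]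
      rw [sum_comm]
      refine sum_congr rfl fun p _ => ?_
      rw [sum_comm]
    rw [hswap]
    have hone : ∀ p ∈ PP b n, 1 / (b : ℝ) ≤
        ∑ c : ZMod q, ∑ c' : ZMod q, Av (fun i => ind (A i ∧ X i = c) *
        avW W T (fun i => ind (A' i ∧ Y i = c')) (i + ((p % W : ℕ) : ZMod N))) := by
      intro p hp
      have hcop : (p % W) ≡ 1 [MOD b] := by
        have h3 : p % W ≡ p [MOD b] := (Nat.mod_modEq p W).of_dvd hbW
        exact h3.trans (PP_mod hp)
      obtain ⟨i0, hi0, hi0'⟩ := hex _ hcop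
      have hP : ∀ i : ZMod N, (A (i + (b : ZMod N)) ∧
          A' (i + (b : ZMod N) + ((p % W : ℕ) : ZMod N))) ↔
          (A i ∧ A' (i + ((p % W : ℕ) : ZMod N))) := by
        intro i
        rw [hA i]
        have h4 : i + (b : ZMod N) + ((p % W : ℕ) : ZMod N) =
            i + ((p % W : ℕ) : ZMod N) + (b : ZMod N) := by ring
        rw [h4, hA']
      have h5 := thmC_dens (P := fun i : ZMod N => A i ∧ A' (i + ((p % W : ℕ) : ZMod N))) hb
        (hbPi.trans hPiN) hP i0 ⟨hi0, hi0'⟩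
      refine h5.trans (le_of_eq ?_)
      have h6 : ∀ i : ZMod N, ind (A i ∧ A' (i + ((p % W : ℕ) : ZMod N))) =
          ∑ c : ZMod q, ∑ c' : ZMod q, ind (A i ∧ X i = c) *
            avW W T (fun i => ind (A' i ∧ Y i = c')) (i + ((p % W : ℕ) : ZMod N)) := by
        intro i
        have h7 : ∀ x : ZMod N, ∑ c' : ZMod q, avW W T (fun i => ind (A' i ∧ Y i = c')) x =
            ind (A' x) := by
          intro x
          rw [← thmC_avW hT hbW hA' x]
          unfold avW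
          rw [← sum_div, sum_comm]
          congr 1
          exact sum_congr rfl fun r _ => thmC_split A' Y _
        simp only [← mul_sum]
        rw [h7, ← sum_mul, thmC_split, ind_mul]
      rw [show (fun i : ZMod N => ind (A i ∧ A' (i + ((p % W : ℕ) : ZMod N)))) =
        fun i => ∑ c : ZMod q, ∑ c' : ZMod q, ind (A i ∧ X i = c) *
            avW W T (fun i => ind (A' i ∧ Y i = c')) (i + ((p % W : ℕ) : ZMod N)) from funext h6]
      rw [Av_sum]
      refine sum_congr rfl fun c _ => ?_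
      rw [Av_sum]
    calc (PP b n).card / (b : ℝ) = ∑ p ∈ PP b n, 1 / (b : ℝ) := by
          rw [sum_const, nsmul_eq_mul]; ring
      _ ≤ _ := sum_le_sum hone
  have h8 := hlower.trans hupper
  have h9 : ((PP b n).card : ℝ) / (2 * b) < (PP b n).card / (b : ℝ) := by
    apply div_lt_div_of_pos_left hcard' hb0
    linarith
  linarith

end Pool.Agent.TwQ
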