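import Pool.Agent.Lib_MP_f1a94e_q.ThmD
import Pool.Agent.Lib_MP_92ef0c_ap.ThmC

set_option autoImplicit false

namespace Pool.Agent.TwQ

open Finset LibLS Pool.Agent.OmQ

open Classical in
/-- THMD -/
theorem thmD (q : ℕ) [NeZero q] (TT : Set (ZMod q × ZMod q))
    (hTT : ∀ c c' : ZMod q, ∃ j : ℕ, (c - (j : ZMod q), c' - (j : ZMod q)) ∈ TT)
    (b : ℕ) (hb : 0 < b) :
    ∃ (K0 I0 : ℕ) (ε0 : ℝ), 0 < ε0 ∧ ∀ I : ℕ, I0 ≤ I →
      ∀ (X Y : ℕ → ZMod q) (A A' : ℕ → Prop) (ρ : ℕ → ℕ),
      (∀ i, A (i + b) ↔ A i) → (∀ i, A' (i + b) ↔ A' i) →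
      (∀ h : ℕ, h ≡ 1 [MOD b] → ∃ i : ℕ, A i ∧ A' (i + h)) →
      ε0 * I ≤ ((Ico I (2 * I)).filter (fun i => A i ∧ ∃ k : ℕ, k ≤ K0 ∧ Squarefree k ∧
        (∀ p ∈ k.primeFactors, p ≡ 1 [MOD b] ∧ ¬ p ∣ b ∧ i ≡ ρ p [MOD p]) ∧ A' (i + k) ∧
        (X i - (k.primeFactors.card : ZMod q), Y (i + k) - (k.primeFactors.card : ZMod q)) ∈ TT)).card := by
  obtain ⟨K0, Pi, ε0, hPi, hbPi, hε0, hC⟩ := thmC q TT hTT b hb
  obtain ⟨M0, hM0⟩ := exists_nat_ge (2 * ((K0 : ℝ) + ε0 * Pi) / ε0)
  refine ⟨K0, max Pi M0, ε0 / 2, by positivity, ?_⟩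
  intro I hI X Y A A' ρ hA hA' hAA
  have hIPi : Pi ≤ I := (le_max_left _ _).trans hI
  have hIM : M0 ≤ I := (le_max_right _ _).trans hI
  obtain ⟨N, hNdef⟩ : ∃ N, N = Pi * (I / Pi) := ⟨_, rfl⟩
  have hNpos : 0 < N := by
    rw [hNdef]
    exact Nat.mul_pos hPi (Nat.div_pos hIPi hPi)
  have : NeZero N := ⟨hNpos.ne'⟩
  have hNI : N ≤ I := by rw [hNdef]; exact Nat.mul_div_le I Pi
  have hNI' : I < N + Pi := by
    rw [hNdef]
    have := Nat.lt_mul_div_succ I hPi
    rw [Nat.mul_add, Nat.mul_one] at this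
    exact this
  have hPN : Pi ∣ N := ⟨I / Pi, hNdef⟩
  have hbN : b ∣ N := hbPi.trans hPN
  -- congruences
  have hcongr : ∀ (i : ZMod N) (m : ℕ), i = (m : ZMod N) → i.val ≡ m [MOD b] := by
    intro i m him
    have h1 : (i.val : ZMod N) = (m : ZMod N) := by rw [ZMod.natCast_zmod_val]; exact him
    exact ((ZMod.natCast_eq_natCast_iff _ _ _).mp h1).of_dvd hbN
  have hvaladd : ∀ (i : ZMod N) (h : ℕ), I + (i + (h : ZMod N)).val ≡ I + i.val + h [MOD b] := by
    intro i h
    have h1 := hcongr (i + (h : ZMod N)) (i.val + h) (by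
      push_cast
      rw [ZMod.natCast_zmod_val])
    have h2 := Nat.ModEq.add_left I h1
    rw [← add_assoc] at h2
    exact h2
  have hgood := hC N hPN (fun i => X (I + i.val)) (fun i => Y (I + i.val))
    (fun i => A (I + i.val)) (fun i => A' (I + i.val)) (fun p => ρ p + (p - 1) * I)
    (by
      intro i
      refine (per_iff hA (hvaladd i b)).trans ?_
      exact hA _)
    (by
      intro i
      refine (per_iff hA' (hvaladd i b)).trans ?_
      exact hA' _)
    (by
      intro h hh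
      obtain ⟨i0, h1, h2⟩ := hAA h hh
      refine ⟨(i0 : ZMod N) - (I : ZMod N), ?_, ?_⟩
      · refine (per_iff hA ?_).mpr h1
        have h3 : (((I + ((i0 : ZMod N) - (I : ZMod N)).val : ℕ)) : ZMod N) = (i0 : ZMod N) := by
          push_cast
          rw [ZMod.natCast_zmod_val]
          ring
        exact ((ZMod.natCast_eq_natCast_iff _ _ _).mp h3).of_dvd hbN
      · refine (per_iff hA' ?_).mpr h2
        have h3 : (((I + ((i0 : ZMod N) - (I : ZMod N) + (h : ZMod N)).val : ℕ)) : ZMod N) =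
            ((i0 + h : ℕ) : ZMod N) := by
          push_cast
          rw [ZMod.natCast_zmod_val]
          ring
        exact ((ZMod.natCast_eq_natCast_iff _ _ _).mp h3).of_dvd hbN)
  set G : Finset (ZMod N) := Finset.univ.filter (fun i : ZMod N =>
    Good K0 b (fun p => ρ p + (p - 1) * I) TT (fun i : ZMod N => X (I + i.val))
      (fun i : ZMod N => Y (I + i.val)) (fun i : ZMod N => A (I + i.val))
      (fun i : ZMod N => A' (I + i.val)) i) with hG
  have hAvG : Av (fun i : ZMod N => ind (Good K0 b (fun p => ρ p + (p - 1) * I) TT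
      (fun i : ZMod N => X (I + i.val)) (fun i : ZMod N => Y (I + i.val))
      (fun i : ZMod N => A (I + i.val)) (fun i : ZMod N => A' (I + i.val)) i)) =
      (G.card : ℝ) / N := by
    unfold Av
    congr 1
    rw [hG, Finset.card_filter]
    push_cast
    refine Finset.sum_congr rfl fun i _ => ?_
    unfold ind
    rfl
  rw [hAvG, le_div_iff₀ (Npos (N := N))] at hgood
  -- the good indices without wrap around
  set R : Finset ℕ := (Ico I (2 * I)).filter (fun i => A i ∧ ∃ k : ℕ, k ≤ K0 ∧ Squarefree k ∧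
        (∀ p ∈ k.primeFactors, p ≡ 1 [MOD b] ∧ ¬ p ∣ b ∧ i ≡ ρ p [MOD p]) ∧ A' (i + k) ∧
        (X i - (k.primeFactors.card : ZMod q), Y (i + k) - (k.primeFactors.card : ZMod q)) ∈ TT) with hR
  have h1 : (G.filter (fun i => i.val + K0 < N)).card ≤ R.card := by
    refine Finset.card_le_card_of_injOn (fun i => I + i.val) ?_ ?_
    · intro i hi
      have hi' := Finset.mem_filter.mp (Finset.mem_coe.mp hi)
      have hiG := (Finset.mem_filter.mp hi'.1).2
      obtain ⟨ha, k, hk, hsq, hpr, hDv, ha', hT⟩ := hiG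
      have hval : (i + (k : ZMod N)).val = i.val + k := by
        have hkN : k < N := by omega
        rw [ZMod.val_add, ZMod.val_natCast, Nat.mod_eq_of_lt hkN, Nat.mod_eq_of_lt (by omega)]
      have hilt : i.val < N := ZMod.val_lt i
      refine Finset.mem_coe.mpr (Finset.mem_filter.mpr ⟨Finset.mem_Ico.mpr
        ⟨(by omega : I ≤ I + i.val), (by omega : I + i.val < 2 * I)⟩,
        ha, k, hk, hsq, ?_, ?_, ?_⟩)
      · intro p hp
        refine ⟨(hpr p hp).1, (hpr p hp).2, ?_⟩
        have hd := hDv p hp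
        have hp1 : 1 ≤ p := (Nat.prime_of_mem_primeFactors hp).one_lt.le
        have e1 : I + i.val ≡ I + (ρ p + (p - 1) * I) [MOD p] := Nat.ModEq.add_left I hd
        have e2 : I + (ρ p + (p - 1) * I) = ρ p + p * I := by
          obtain ⟨c, rfl⟩ : ∃ c, p = c + 1 := ⟨p - 1, by omega⟩
          simp only [Nat.add_sub_cancel]
          ring
        rw [e2] at e1
        refine e1.trans ?_
        unfold Nat.ModEq
        rw [Nat.add_mul_mod_self_left]
      · have := ha'
        simp only [hval] at this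
        rw [← add_assoc] at this
        exact this
      · have := hT
        simp only [hval] at this
        rw [← add_assoc] at this
        exact this
    · intro i _ j _ hij
      have : i.val = j.val := by simpa using hij
      exact ZMod.val_injective N this
  have h2 : (G.filter (fun i => ¬ (i.val + K0 < N))).card ≤ K0 := by
    have : (G.filter (fun i => ¬ (i.val + K0 < N))).card ≤ (Finset.Ico (N - K0) N).card := by
      refine Finset.card_le_card_of_injOn (fun i => i.val) ?_ ?_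
      · intro i hi
        have hi' := (Finset.mem_filter.mp (Finset.mem_coe.mp hi)).2
        have hilt : i.val < N := ZMod.val_lt i
        exact Finset.mem_coe.mpr (Finset.mem_Ico.mpr ⟨(by omega : N - K0 ≤ i.val), hilt⟩)
      · intro i _ j _ hij
        exact ZMod.val_injective N hij
    refine this.trans ?_
    rw [Nat.card_Ico]
    omega
  have h3 : G.card ≤ R.card + K0 := by
    rw [← Finset.card_filter_add_card_filter_not (s := G) (fun i => i.val + K0 < N)]
    exact add_le_add h1 h2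
  have h3' : (G.card : ℝ) ≤ R.card + K0 := by exact_mod_cast h3
  have hNr : (I : ℝ) ≤ N + Pi := by exact_mod_cast hNI'.le
  have hIr : 2 * ((K0 : ℝ) + ε0 * Pi) / ε0 ≤ I := hM0.trans (by exact_mod_cast hIM)
  rw [div_le_iff₀ hε0] at hIr
  nlinarith [mul_le_mul_of_nonneg_left hNr hε0.le]

end Pool.Agent.TwQ
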